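import Mathlib

namespace Pool.Agent.Results.MP_8267fa_gt.NotRegular
open Set Filter Topology

def OZ (Y Z : Type) [TopologicalSpace Y] [TopologicalSpace Z] : Set (Set Y) :=
  {W | ∃ (f : C(Y, Z)) (U : Set Z), IsOpen U ∧ W = f ⁻¹' U}

/-- membership in the `Z`-Scott topology on the open sets of `Y` -/
def IsZScott (Y Z : Type) [TopologicalSpace Y] [TopologicalSpace Z] (H : Set (Set Y)) : Prop :=
  (∀ W ∈ H, IsOpen W) ∧ (∀ W ∈ H ∩ OZ Y Z, ∀ V, IsOpen V → W ⊆ V → V ∈ H) ∧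
    ∀ C ⊆ OZ Y Z, ⋃₀ C ∈ H → ∃ D ⊆ C, D.Finite ∧ ⋃₀ D ∈ H

/-- the topology `t₁^Z` on `C(Y, Z)` -/
@[reducible] def t1 (Y Z : Type) [TopologicalSpace Y] [TopologicalSpace Z] : TopologicalSpace C(Y, Z) :=
  TopologicalSpace.generateFrom
    {S | ∃ (H : Set (Set Y)) (U : Set Z), IsZScott Y Z H ∧ IsOpen U ∧ S = {f : C(Y, Z) | f ⁻¹' U ∈ H}}

def Y : Type := Option (ℕ × ℕ)
def pt (k m : ℕ) : Y := some (k, m)
def oo : Y := none

instance : TopologicalSpace Y where
  IsOpen U := oo ∈ U → ∀ᶠ k in atTop, ∀ᶠ m in atTop, pt k m ∈ U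
  isOpen_univ := by simp
  isOpen_inter s t hs ht h := by
    filter_upwards [hs h.1, ht h.2] with k h1 h2 using h1.and h2
  isOpen_sUnion s hs := fun ⟨t, ht, h⟩ => (hs t ht h).mono fun k hk => hk.mono fun m hm => ⟨t, ht, hm⟩

lemma op {U : Set Y} : IsOpen U ↔ (oo ∈ U → ∀ᶠ k in atTop, ∀ᶠ m in atTop, pt k m ∈ U) := Iff.rfl

open Classical in
/-- indicator of an open set containing the point at infinity -/
noncomputable def ind (W : Set Y) (h : IsOpen W) (h0 : oo ∈ W) : C(Y, Bool) :=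
  ⟨fun y => decide (y ∈ W), continuous_def.2 fun U _ => op.2 fun hU =>
    (op.1 h h0).mono fun k hk => hk.mono fun m hm => by simpa [h0, hm] using hU⟩

lemma oz {W : Set Y} : W ∈ OZ Y Bool ↔ IsClopen W :=
  ⟨by rintro ⟨f, U, -, rfl⟩; exact (isClopen_discrete U).preimage f.continuous, fun h =>
    ⟨⟨_, (continuous_boolIndicator_iff_isClopen W).2 h⟩, {true}, isOpen_discrete _,
      W.preimage_boolIndicator_true.symm⟩⟩

lemma clop {W : Set Y} (h : IsOpen W) (h0 : oo ∈ W) : IsClopen W :=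
  ⟨isOpen_compl_iff.1 (op.2 fun h => absurd h0 h), h⟩

lemma pt_inj {k m k' m' : ℕ} : pt k m = pt k' m' ↔ k = k' ∧ m = m' :=
  Option.some_inj.trans Prod.ext_iff
lemma pt_ne (k m : ℕ) : pt k m ≠ oo := by simp [pt, oo]

/-- complement of the part of the array below the graph of `c` (`c k = ⊤`: the whole column) -/
def A (c : ℕ → ℕ∞) : Set Y := {y | ∀ k m : ℕ, y = pt k m → c k ≤ m}

lemma A_oo (c : ℕ → ℕ∞) : oo ∈ A c := fun k m h => absurd h.symm (pt_ne k m)
lemma A_pt (c : ℕ → ℕ∞) (k m : ℕ) : pt k m ∈ A c ↔ c k ≤ m := by simp [A, pt_inj]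
lemma A_open (c : ℕ → ℕ∞) (h : ∀ᶠ k in atTop, c k ≠ ⊤) : IsOpen (A c) := op.2 fun _ =>
  h.mono fun k hk => by
    lift c k to ℕ using hk with n hn
    filter_upwards [eventually_ge_atTop n] with m hm
    rw [A_pt, ← hn]; exact_mod_cast hm

lemma s_open (k : ℕ) (m : ℕ∞) : IsOpen (A (Pi.single k m)) :=
  A_open _ ((eventually_ne_atTop k).mono fun j hj => by simp [hj])

noncomputable def h (k : ℕ) (m : ℕ∞) : C(Y, Bool) := ind _ (s_open k m) (A_oo _)

lemma sing {y : Y} (hy : y ≠ oo) : IsClopen {y} := by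
  obtain _ | ⟨k, m⟩ := y
  · exact absurd rfl hy
  exact isClopen_compl_iff.1 (clop (W := {pt k m}ᶜ) (op.2 fun _ => (eventually_ne_atTop k).mono
    fun j hj => Eventually.of_forall fun m => by simp [pt_inj, hj]) (pt_ne k m).symm)

/-- finitely many points can replace a set of isolated points -/
lemma fin {H : Set (Set Y)} (hH : IsZScott Y Bool H) (W S : Set Y) (hW : IsClopen W)
    (hS : oo ∉ S) (h : W ∪ S ∈ H) : ∃ F ⊆ S, F.Finite ∧ ∀ V, IsOpen V → W ∪ F ⊆ V → V ∈ H := by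
  have hC : insert W (singleton '' S) ⊆ OZ Y Bool := by
    rintro _ (rfl | ⟨y, hy, rfl⟩)
    exacts [oz.2 hW, oz.2 (sing fun e => hS (e ▸ hy))]
  obtain ⟨D, hD, hf, hD'⟩ := hH.2.2 _ hC (by simpa using h)
  refine ⟨S ∩ singleton ⁻¹' D, inter_subset_left,
    (hf.preimage singleton_injective.injOn).subset inter_subset_right, fun V hV hs =>
    hH.2.1 _ ⟨hD', oz.2 ?_⟩ V hV (Subset.trans ?_ hs)⟩
  · rw [sUnion_eq_biUnion]; exact hf.isClopen_biUnion fun t ht => oz.1 (hC (hD ht))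
  · rintro y ⟨t, ht, hy⟩
    rcases hD ht with rfl | ⟨z, hz, rfl⟩
    · exact Or.inl hy
    · obtain rfl : y = z := hy
      exact Or.inr ⟨hz, ht⟩

lemma c1 (N : Set C(Y, Bool)) (hN : IsOpen[t1 Y Bool] N) (h0 : ContinuousMap.const _ true ∈ N) :
    ∀ᶠ k in atTop, ∀ m : ℕ, h k m ∈ N := by
  induction hN with
  | univ => simp
  | inter s t _ _ hs ht => filter_upwards [hs h0.1, ht h0.2] with k a b m using ⟨a m, b m⟩
  | sUnion S _ ih => obtain ⟨t, ht, h1⟩ := h0; exact (ih t ht h1).mono fun k a m => ⟨t, ht, a m⟩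
  | basic s hs =>
    obtain ⟨H, U, hH, hU, rfl⟩ := hs
    by_cases ht : true ∈ U
    swap
    · refine Eventually.of_forall fun k m => hH.2.1 ∅ ⟨by convert mem_ofPred.1 h0; ext; simp [ht], oz.2 isClopen_empty⟩
        _ (hU.preimage (h k m).continuous) (empty_subset _)
    have h1 : ∀ k, ∃ c : ℕ, (h k c ⁻¹' U ∈ H → ∀ m : ℕ, h k m ⁻¹' U ∈ H) := fun k => by
      by_contra hc
      push Not at hc
      obtain ⟨-, m, hm⟩ := hc 0
      exact hm (hc m).1
    choose c hc using h1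
    have ho := A_open (fun k => c k) (by simp)
    obtain ⟨F, -, hF, hV⟩ := fin hH (A fun k => c k) (A fun k => c k)ᶜ (clop ho (A_oo _))
      (fun h => h (A_oo _)) (by convert mem_ofPred.1 h0; ext; simp [ht, em])
    have : ∀ᶠ k in atTop, ∀ y ∈ F, ∀ m, y ≠ pt k m := (eventually_all_finite hF).2 fun y _ => by
      obtain _ | ⟨j, n⟩ := y
      · exact Eventually.of_forall fun k m => (pt_ne k m).symm
      · exact (eventually_ne_atTop j).mono fun k hk m e => hk (pt_inj.1 e).1.symm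
    filter_upwards [this] with k hk
    refine hc k (hV _ (hU.preimage (h k _).continuous) fun y hy => ?_)
    have : y ∈ A (Pi.single k (c k)) := fun j m e => by
      by_cases hj : j = k
      · subst hj
        rcases hy with hy | hy
        · simpa using hy j m e
        · exact absurd e (hk y hy m)
      · simp [hj]
    simpa [h, ind, this] using ht

lemma c2 (k : ℕ) (N : Set C(Y, Bool)) (hN : IsOpen[t1 Y Bool] N) (h0 : h k ⊤ ∈ N) :
    ∀ᶠ m : ℕ in atTop, h k m ∈ N := by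
  induction hN with
  | univ => simp
  | inter s t _ _ hs ht => exact (hs h0.1).and (ht h0.2)
  | sUnion S _ ih => obtain ⟨t, ht, h1⟩ := h0; exact (ih t ht h1).mono fun k a => ⟨t, ht, a⟩
  | basic s hs =>
    obtain ⟨H, U, hH, hU, rfl⟩ := hs
    obtain ⟨F, hS, hF, hV⟩ := fin hH (h k ⊤ ⁻¹' U ∩ A (Pi.single k ⊤)) (h k ⊤ ⁻¹' U \ A (Pi.single k ⊤))
      (((isClopen_discrete U).preimage (h k ⊤).continuous).inter (clop (s_open k ⊤) (A_oo _)))
      (fun h => h.2 (A_oo _)) (by simpa using h0)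
    have : ∀ᶠ m : ℕ in atTop, ∀ y ∈ F, y ∉ A (Pi.single k m) :=
      (eventually_all_finite hF).2 fun y hy => by
        have := (hS hy).2
        simp only [A, mem_setOf, not_forall] at this
        obtain ⟨j, n, rfl, hn⟩ := this
        obtain rfl : j = k := by by_contra hj; simp [hj] at hn
        filter_upwards [eventually_gt_atTop n] with m hm
        simpa [A_pt] using hm
    filter_upwards [this] with m hm
    refine hV _ (hU.preimage (h k _).continuous) ?_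
    rintro y (⟨h1, h2⟩ | hy)
    · have : y ∈ A (Pi.single k m) := fun j n e => le_trans (by
        by_cases hj : j = k <;> simp [hj]) (h2 j n e)
      simpa [h, ind, this, h2] using h1
    · simpa [h, ind, hm y hy, (hS hy).2] using (hS hy).1

def H0 : Set (Set Y) := {U | IsOpen U ∧ oo ∈ U ∧ ∀ k, ∃ m, pt k m ∈ U}

lemma hH0 : IsZScott Y Bool H0 := by
  refine ⟨fun _ h => h.1, fun W ⟨h, _⟩ V hV hs => ⟨hV, hs h.2.1, fun k => (h.2.2 k).imp fun _ a => hs a⟩,
    fun C hC ⟨_, ⟨t, ht, h0⟩, h1⟩ => ?_⟩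
  choose m s hs hm using h1
  obtain ⟨K, hK⟩ := eventually_atTop.1 (op.1 (oz.1 (hC ht)).2 h0)
  have hD : insert t (s '' Iio K) ⊆ C := by
    rintro _ (rfl | ⟨k, -, rfl⟩)
    exacts [ht, hs k]
  refine ⟨_, hD, ((finite_Iio K).image s).insert t, isOpen_sUnion fun u hu => (oz.1 (hC (hD hu))).2,
    ⟨t, Or.inl rfl, h0⟩, fun k => ?_⟩
  by_cases hk : k < K
  · exact ⟨m k, s k, Or.inr ⟨k, hk, rfl⟩, hm k⟩
  · obtain ⟨n, hn⟩ := (hK k (not_lt.1 hk)).exists
    exact ⟨n, t, Or.inl rfl, hn⟩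

theorem result : ∃ (Y Z : Type) (_ : TopologicalSpace Y) (_ : TopologicalSpace Z),
    CompletelyRegularSpace Z ∧ ¬ @CompletelyRegularSpace C(Y, Z) (t1 Y Z) := by
  refine ⟨Y, Bool, inferInstance, inferInstance, inferInstance, fun hr => ?_⟩
  letI := t1 Y Bool
  have ho : IsOpen {f : C(Y, Bool) | f ⁻¹' {true} ∈ H0} :=
    TopologicalSpace.GenerateOpen.basic _ ⟨H0, _, hH0, isOpen_discrete _, rfl⟩
  obtain ⟨C, hC, hc, hs⟩ := exists_mem_nhds_isClosed_subset (ho.mem_nhds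
    (x := ContinuousMap.const _ true) ⟨(isOpen_discrete _).preimage (map_continuous _), rfl, fun _ => ⟨0, rfl⟩⟩)
  obtain ⟨k, hk⟩ := (c1 _ isOpen_interior (mem_interior_iff_mem_nhds.2 hC)).exists
  obtain ⟨m, hm⟩ := (c2 k _ hc.isOpen_compl fun hh => by
    obtain ⟨m, hm⟩ := (hs hh).2.2 k
    simp [h, ind, A_pt] at hm).exists
  exact hm (interior_subset (hk m))

end Pool.Agent.Results.MP_8267fa_gt.NotRegular
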